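import Pool.Agent.Helper77.SO.St3

/-!
# MP_7a9ddc_co, project SO: module EXW (existence of the set `W` in sparse graphs)
-/

set_option autoImplicit false

namespace Pool.Agent.Helper26.SO.EXW

open Equiv Equiv.Perm Pool.Agent.Helper35.PM Pool.Agent.Helper77.HY Pool.Agent.Helper77.OF4
  Pool.Agent.Helper77.SO

theorem main (hR12 : StR12) (hR3 : StR3) (hDis : StDis) : StExw := by
  intro V _ _ G R hTF hs X
  induction X using Finset.strongInduction with
  | H X ih =>
    rcases X.eq_empty_or_nonempty with hX | hX
    · subst hX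
      refine ⟨∅, Finset.Subset.refl _, ?_, ?_, ?_⟩
      · intro a ha
        exact absurd ha (Finset.notMem_empty a)
      · intro v
        exact absurd v.2.1 (Finset.notMem_empty v.1)
      · intro v hv
        exact absurd hv (Finset.notMem_empty v)
    · rcases hDis V G X hX (hs X hX) with ⟨x, hx, h1⟩ | ⟨b, hb, y, h1, h2, h3⟩
      · exact hR12 V G R X x hx h1 (ih _ (Finset.erase_ssubset hx))
      · exact hR3 V G R X b y hTF hb h1 h2 h3 fun X' hX' => ih X' hX'

end Pool.Agent.Helper26.SO.EXW
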